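import Pool.Agent.NH12.NV.Pos

/-!
# A positive proportion of the twists of an odd two-dimensional Artin representation has no zeros
near the central point

Let `ρ` be an odd irreducible two-dimensional Artin representation of `ℚ` (dihedral, tetrahedral,
octahedral or icosahedral), that is, the representation attached to a newform `f` of weight one,
level `N`, nebentypus `ψ` (Deligne–Serre, Khare–Wintenberger).  For the primitive Dirichlet characters
`χ` of conductor `q ≤ Q` prime to `N`, about `Q²` of them, `ρ ⊗ χ` is an irreducible representation of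
the Galois group of a finite extension of `ℚ`, unitary or orthogonal.  Statement (ii) of the problem
says that `L(1/2, ρ ⊗ χ) ≠ 0` for all of them.

We prove, with no hypothesis, that there are `c > 0` and `κ > 0` which depend on `ρ` only, such that
for all large `Q` at least `c Q²` of these characters satisfy

* `|L(1/2, ρ ⊗ χ)| ≥ κ / (log Q)²`, and
* `L(s, ρ ⊗ χ) ≠ 0` in the whole disc `|s - 1/2| ≤ κ / log Q`, whose radius is of the order of the
  average distance of the zeros.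

Proof.  The second moment of `L(s, ρ ⊗ χ) M(s, χ)`, with a mollifier `M` of length `Q^(1/8)` whose
coefficients have smooth weights, is at most `C Q²` for `|s - 1/2| ≤ 2 / (1 + log Q)`, with no loss of
logarithms (`Pool.Agent.NH12.BA`, the machinery of the result
`MP_347b49_nt/BoundedAverageOrder`; large sieve for primitive characters).  The first moment at `1/2`
is the number of the characters up to `O(Q^(39/20))`: the approximate functional equation, with
lengths `q^(3/2)` and `q^(1/2)`, the characters of the main part by orthogonality of primitive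
characters on average over `q`, and Weil's bound for Kloosterman sums for the dual part, whose root
numbers are squares of Gauss sums.  If `L(s, ρ ⊗ χ)` has a zero in the small disc, then
`L M` is small at `1/2` in mean square, by Cauchy's formula; if `L(1/2, ρ ⊗ χ)` is small, then by the
mean square of `M`.  Cauchy's inequality gives the result.
-/

set_option autoImplicit false

open Complex UpperHalfPlane MatrixGroups CongruenceSubgroup NumberField

namespace Pool.Agent.Results.MP_3b6604_nt.PositiveProportionOdd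

/-- The `n`-th Fourier coefficient `a(n)` of `f(τ) = ∑ a(n) e^(2πinτ)`. -/
noncomputable def a {N : ℕ} (f : CuspForm (Gamma1 N : Subgroup (GL (Fin 2) ℝ)) 1) (n : ℕ) : ℂ :=
  (qExpansion 1 f).coeff n

/-- `f ∈ S_1(Γ₁(N))` is a newform of weight one with nebentypus `ψ`; the properties that are used:
`f(γτ) = ψ(d) (cτ + d) f(τ)` for all `γ = (a b; c d) ∈ Γ₀(N)`, the Fourier coefficients `a(n)` of `f`
satisfy `a(1) = 1`, `a(mn) = a(m) a(n)` for coprime `m`, `n`,
`a(p^(j+2)) = a(p) a(p^(j+1)) - ψ(p) a(p^j)`, and for the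
primes `p ∤ N` also `conj a(p) = conj ψ(p) a(p)` and `|a(p)| ≤ 2`, for the primes `p ∣ N`
`|a(p)| ≤ 1` (Deligne–Serre); the Fricke involution takes `f` to a multiple of `f^c`,
`f^c(τ) = conj f(-conj τ)`: `f(-1/(Nτ)) = w √N (τ/i) f^c(τ)` with `|w| = 1`. -/
structure IsNewform (N : ℕ) (ψ : DirichletCharacter ℂ N)
    (f : CuspForm (Gamma1 N : Subgroup (GL (Fin 2) ℝ)) 1) : Prop where
  neb : ∀ γ : SL(2, ℤ), γ ∈ Gamma0 N → ∀ τ : ℍ, f (γ • τ) = ψ ((γ 1 1 : ℤ) : ZMod N) *
    (((γ 1 0 : ℤ) : ℂ) * (τ : ℂ) + ((γ 1 1 : ℤ) : ℂ)) * f τ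
  one : a f 1 = 1
  mul : ∀ m n : ℕ, Nat.Coprime m n → a f (m * n) = a f m * a f n
  pow : ∀ p j : ℕ, p.Prime → a f (p ^ (j + 2)) = a f p * a f (p ^ (j + 1)) -
    ψ (p : ZMod N) * a f (p ^ j)
  conj : ∀ p : ℕ, p.Prime → ¬ p ∣ N → (starRingEnd ℂ) (a f p) =
    (starRingEnd ℂ) (ψ (p : ZMod N)) * a f p
  good : ∀ p : ℕ, p.Prime → ¬ p ∣ N → ‖a f p‖ ≤ 2
  bad : ∀ p : ℕ, p.Prime → p ∣ N → ‖a f p‖ ≤ 1
  fricke : ∃ w : ℂ, ‖w‖ = 1 ∧ ∀ τ τ' τc : ℍ, (τ' : ℂ) * ((N : ℂ) * (τ : ℂ)) = -1 →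
    (τc : ℂ) = -(starRingEnd ℂ) (τ : ℂ) →
    f τ' = w * (Real.sqrt N : ℂ) * ((τ : ℂ) / Complex.I) * (starRingEnd ℂ) (f τc)

section artin

variable {K : Type} [Field K] [NumberField K] {V : Type} [AddCommGroup V] [Module ℂ V]

/-- The inertia group of the prime ideal `P` of the ring of integers of `K` in `Gal(K/ℚ)`. -/
def inertia (P : Ideal (𝓞 K)) : Set (K ≃ₐ[ℚ] K) :=
  {τ | ∀ x y : 𝓞 K, (y : K) = τ (x : K) → y - x ∈ P}

/-- `σ` is a Frobenius element at the prime ideal `P` above `p`: `σ x ≡ x^p mod P`. -/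
def IsFrob (p : ℕ) (P : Ideal (𝓞 K)) (σ : K ≃ₐ[ℚ] K) : Prop :=
  P.IsPrime ∧ (p : 𝓞 K) ∈ P ∧ ∀ x y : 𝓞 K, (y : K) = σ (x : K) → y - x ^ p ∈ P

/-- The projection of `V` onto the subspace of the vectors fixed by the inertia group of `P`:
the average of `ρ τ` over the inertia group. -/
noncomputable def invProj (ρ : Representation ℂ (K ≃ₐ[ℚ] K) V) (P : Ideal (𝓞 K)) : V →ₗ[ℂ] V :=
  ((inertia P).ncard : ℂ)⁻¹ • ∑ᶠ τ ∈ inertia P, ρ τ

/-- `det(1 - x ρ(σ) | V^I)`, where `I` is the inertia group of `P`. -/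
noncomputable def eulerPoly (ρ : Representation ℂ (K ≃ₐ[ℚ] K) V) (P : Ideal (𝓞 K))
    (σ : K ≃ₐ[ℚ] K) (x : ℂ) : ℂ :=
  LinearMap.det (LinearMap.id - x • (ρ σ ∘ₗ invProj ρ P))

/-- `ρ` is attached to `f`: the Artin L-function of `ρ` and the L-function of `f` have the same
Euler factor `(1 - a(p) p^(-s) + ψ(p) p^(-2s))⁻¹` at every prime `p`. -/
def Attached {N : ℕ} (ψ : DirichletCharacter ℂ N)
    (f : CuspForm (Gamma1 N : Subgroup (GL (Fin 2) ℝ)) 1)
    (ρ : Representation ℂ (K ≃ₐ[ℚ] K) V) : Prop :=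
  ∀ p : ℕ, p.Prime → ∀ (P : Ideal (𝓞 K)) (σ : K ≃ₐ[ℚ] K), IsFrob p P σ →
    ∀ x : ℂ, eulerPoly ρ P σ x = 1 - a f p * x + ψ (p : ZMod N) * x ^ 2

/-- `F` is the Artin L-function `L(s, ρ ⊗ χ)`, for a Dirichlet character `χ` modulo `q` (`ρ`
unramified at the primes dividing `q`), and it is entire: for `Re s > 1` it is the product of
`det(1 - χ(p) p^(-s) ρ(Frob_p) | V^(I_p))⁻¹` over all primes `p` (for every choice of the Frobenius
elements). -/
def IsArtinL (ρ : Representation ℂ (K ≃ₐ[ℚ] K) V) (q : ℕ) (χ : DirichletCharacter ℂ q)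
    (F : ℂ → ℂ) : Prop :=
  Differentiable ℂ F ∧ ∀ (P : Nat.Primes → Ideal (𝓞 K)) (σ : Nat.Primes → (K ≃ₐ[ℚ] K)),
    (∀ p : Nat.Primes, IsFrob p (P p) (σ p)) → ∀ s : ℂ, 1 < s.re →
      HasProd (fun p : Nat.Primes =>
        (eulerPoly ρ (P p) (σ p) (χ ((p : ℕ) : ZMod q) * ((p : ℕ) : ℂ) ^ (-s)))⁻¹) (F s)

end artin

/-- The number of the primitive Dirichlet characters `χ` of conductor `q`, `2 ≤ q ≤ Q`, `q` prime to
`N`, which have the property `S q χ`. -/
noncomputable def count (N Q : ℕ) (S : (q : ℕ) → DirichletCharacter ℂ q → Prop) : ℕ :=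
  ∑ q ∈ (Finset.Icc 2 Q).filter (fun q => Nat.Coprime q N),
    {χ : DirichletCharacter ℂ q | χ.IsPrimitive ∧ S q χ}.ncard

/-- **Theorem.** Let `f` be a newform of weight one, level `N`, nebentypus `ψ`, and let `ρ` be an Artin
representation attached to `f`.  For every primitive Dirichlet character `χ` of conductor
`q` prime to `N` the Artin L-function `L(s, ρ ⊗ χ)` is entire, and there are positive constants `c` and
`κ` such that for all sufficiently large `Q` there are at least `c Q²` primitive characters `χ` of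
conductor `q ≤ Q` prime to `N` with `|L(1/2, ρ ⊗ χ)| ≥ κ / (log Q)²` and with
`L(s, ρ ⊗ χ) ≠ 0` for all `s` in the disc `|s - 1/2| ≤ κ / log Q`. -/
theorem result (N : ℕ) [NeZero N] (ψ : DirichletCharacter ℂ N)
    (f : CuspForm (Gamma1 N : Subgroup (GL (Fin 2) ℝ)) 1) (hf : IsNewform N ψ f)
    (K : Type) [Field K] [NumberField K] [IsGalois ℚ K]
    (V : Type) [AddCommGroup V] [Module ℂ V] [FiniteDimensional ℂ V]
    (ρ : Representation ℂ (K ≃ₐ[ℚ] K) V) (hρ : Attached ψ f ρ) :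
    ∃ L : (q : ℕ) → DirichletCharacter ℂ q → ℂ → ℂ,
      (∀ (q : ℕ) (χ : DirichletCharacter ℂ q), 1 ≤ q → Nat.Coprime q N → χ.IsPrimitive →
        IsArtinL ρ q χ (L q χ)) ∧
      ∃ (c κ : ℝ) (Q₀ : ℕ), 0 < c ∧ 0 < κ ∧ ∀ Q : ℕ, Q₀ ≤ Q → c * (Q : ℝ) ^ 2 ≤
        (count N Q (fun q χ => κ / Real.log Q ^ 2 ≤ ‖L q χ (1 / 2)‖ ∧
          ∀ s : ℂ, ‖s - 1 / 2‖ ≤ κ / Real.log Q → L q χ s ≠ 0) : ℝ) := by
  obtain ⟨w, hw, hfr⟩ := hf.fricke
  have hN : Pool.Agent.W192.WO.Newf1 N ψ f w :=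
    ⟨hf.one, hf.mul, hf.pow, hf.conj, hf.good, hf.bad, hf.neb, hw, hfr⟩
  obtain ⟨L, hL, h⟩ := Pool.Agent.NH12.NV.pos_prop hN
  refine ⟨L, ?_, h⟩
  intro q χ hq hqN hχ
  obtain ⟨h1, h2⟩ := hL q χ hq hqN hχ
  refine ⟨h1, fun P σ hσ s hs => ?_⟩
  refine (h2 s hs).congr_fun fun p => ?_
  rw [hρ p p.2 (P p) (σ p) (hσ p)]
  congr 1
  have e : ((p : ℕ) : ℂ) ^ (-2 * s) = (((p : ℕ) : ℂ) ^ (-s)) ^ 2 := by
    rw [← Complex.cpow_nat_mul]
    congr 1
    push_cast
    ring
  have e2 : Pool.Agent.W192.CY.cf f p = a f p := rfl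
  rw [e, e2]
  ring

end Pool.Agent.Results.MP_3b6604_nt.PositiveProportionOdd
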