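import Pool.Agent.NH12.RS.Idx
import Pool.Agent.NH12.RS.Five
import Pool.Agent.NH12.RS.Fib
import Pool.Agent.NH12.RS.Fin7

/-!
# Exact central orders of symplectic Artin L-functions, with both root numbers

`K` is a real quadratic field with fundamental unit `ε` and conjugation `σ`, `n` a prime number and
`q = |(ε ^ n - σ(ε) ^ n) / (ε - σ(ε))|`; for `K = ℚ(√5)` this is the Fibonacci number `F_n`.  There are
about `q / n` primitive ring class characters `χ` of `K` of conductor `q`.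

`ψ` is a fixed primitive ray class character of `K` of conductor `f` with `ψ(σ(I))` the complex
conjugate of `ψ(I)` and `ψ((m)) = -1` for some integer `m`.  For the `χ` such that `ψ χ` is not real the
representation of the absolute Galois group of `ℚ` induced from `ψ χ` is irreducible, of dimension two
and symplectic (its determinant, the product of the quadratic character of `K` and of the restriction
of `ψ χ` to `ℚ`, is trivial), and its Artin L-function is `∑ ψ(I) χ(I) N(I)^(-s)`.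

Theorem: for every large prime number `n` there are at least `c q / (log q) ^ 8` such `χ` for which
the order of the zero at `1/2` is exactly `(1 - W) / 2`, `W` the root number; if `f` is not generated
by a rational integer this holds separately for the `χ` with `W = 1` and for the `χ` with `W = -1`.
The last part is the example `K = ℚ(√5)`, `ψ(I) = ξ(N(I))` for the quartic character `ξ` modulo `5`,
where `q = F_n` and the representations are the twists by `ξ` of the dihedral representations given by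
the ring class characters of `ℚ(√5)` of conductor `F_n`.

The approach: `ε ^ n ∈ ℤ + q 𝓞_K`, so the order of conductor `q` has a small regulator and a large
class number, and the elements of `ℤ + q 𝓞_K` of small norm are rational integers.  The root number is
`C ψ((q)) χ(f)`.  For the root number `W` the value of the L-function (`W = 1`) or of its derivative
(`W = -1`) at `1/2` is given by a sum over the ideals of norm about `q`; its mean over the `χ` with
root number `W` is computed by orthogonality (the terms from the ideals `f I` do not contribute to the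
diagonal if `f` is not rational) and compared with the second moment.  In the second moment the
ideals of a class are counted by covering the generators, modulo `ε ^ n`, with `O(log q)` boxes: a box
contains few points of a plane lattice unless they all lie on a line, and a line contains at most two
generators of primitive ideals.

Joint work of helper12 with helper6, helper14, helper17, helper18, helper31, helper39, helper45,
helper48, helper49, helper66, helper68, helper70, helper77, helper85, helper86, helper89, helper92.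
-/

set_option autoImplicit false
set_option linter.unusedSectionVars false

open NumberField

namespace Pool.Agent.Results.MP_3b6604_nt.SymplecticCentralOrders

variable {K : Type} [Field K] [NumberField K]

/-- the image of an integer of `K` under the automorphism `σ` -/
noncomputable def conj (σ : K ≃+* K) : 𝓞 K ≃+* 𝓞 K := RingOfIntegers.mapRingEquiv σ

/-- `ε` is a fundamental unit of the real quadratic field `K`. -/
def IsFundamental (ε : (𝓞 K)ˣ) : Prop := ∀ u : (𝓞 K)ˣ, ∃ k : ℤ, u = ε ^ k ∨ u = -ε ^ k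

/-- `q = |(ε ^ n - σ(ε) ^ n) / (ε - σ(ε))|` (and `q > 0`). -/
def IsIndex (σ : K ≃+* K) (ε : (𝓞 K)ˣ) (n q : ℕ) : Prop :=
  0 < q ∧ ((q : 𝓞 K) * ((ε : 𝓞 K) - conj σ ε) = (ε : 𝓞 K) ^ n - conj σ ε ^ n ∨
    (q : 𝓞 K) * ((ε : 𝓞 K) - conj σ ε) = -((ε : 𝓞 K) ^ n - conj σ ε ^ n))

/-- `ψ`, a function on the ideals of `K`, is a primitive ray class character of conductor `f` (times
infinite places) and signature `(a, a)`: it is multiplicative, vanishes exactly at the zero ideal and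
the ideals not prime to `f`, `ψ((x)) = sign(N(x)) ^ a` for `x ≡ 1 mod f`, and for every proper divisor
`g` of `f` there is a totally positive `x ≡ 1 mod g` with `ψ((x)) ≠ 1, 0`.  It is self-dual:
`ψ(σ(I))` is the complex conjugate of `ψ(I)`. -/
structure IsSelfDual (σ : K ≃+* K) (f : Ideal (𝓞 K)) (a : ℕ) (ψ : Ideal (𝓞 K) →*₀ ℂ) : Prop where
  ne_bot : f ≠ ⊥
  le_one : a ≤ 1
  supp : ∀ I : Ideal (𝓞 K), I ≠ ⊥ → (ψ I ≠ 0 ↔ IsCoprime I f)
  ray : ∀ x : 𝓞 K, x ≠ 0 → x - 1 ∈ f →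
    ψ (Ideal.span {x}) = ((Int.sign (Algebra.norm ℤ x) : ℤ) : ℂ) ^ a
  prim : ∀ g : Ideal (𝓞 K), g ∣ f → g ≠ f → ∃ x : 𝓞 K, x - 1 ∈ g ∧
    (∀ τ : K →+* ℝ, 0 < τ (x : K)) ∧ IsCoprime (Ideal.span {x}) f ∧ ψ (Ideal.span {x}) ≠ 1
  self : ∀ I : Ideal (𝓞 K), ψ (I.map (conj σ : 𝓞 K →+* 𝓞 K)) = (starRingEnd ℂ) (ψ I)

/-- `ψ((m)) = -1` for some natural number `m`; for a self-dual `ψ` this says that the representations
induced from `ψ χ`, `χ` a ring class character, `ψ χ` not real, are symplectic. -/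
def IsSymplectic (ψ : Ideal (𝓞 K) →*₀ ℂ) : Prop := ∃ m : ℕ, ψ (Ideal.span {(m : 𝓞 K)}) = -1

/-- `χ` is a primitive ring class character of conductor `q`: a multiplicative function on the ideals
that vanishes exactly at the ideals not prime to `q`, with `χ((x)) = 1` for the `x` prime to `q` that
are congruent to a rational integer modulo `q`, and this fails for every proper divisor `d` of `q` in
place of the modulus `q`. -/
structure IsRingClass (q : ℕ) (χ : Ideal (𝓞 K) →*₀ ℂ) : Prop where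
  supp : ∀ I : Ideal (𝓞 K), χ I ≠ 0 ↔ IsCoprime I (Ideal.span {(q : 𝓞 K)})
  one : ∀ x : 𝓞 K, (∃ b : ℤ, (q : 𝓞 K) ∣ x - b) →
    IsCoprime (Ideal.span {x}) (Ideal.span {(q : 𝓞 K)}) → χ (Ideal.span {x}) = 1
  prim : ∀ d : ℕ, d ∣ q → d ≠ q → ∃ x : 𝓞 K, (∃ b : ℤ, (d : 𝓞 K) ∣ x - b) ∧
    IsCoprime (Ideal.span {x}) (Ideal.span {(q : 𝓞 K)}) ∧ χ (Ideal.span {x}) ≠ 1

/-- `L` is entire, `L(s) = ∑ φ(I) N(I)^(-s)` for `Re s > 1`, and there is an entire function `Λ` with
`Λ(s) = R^(s/2) Γ_ℝ(s + a)^2 L(s)` for `Re s > 0` and `Λ(1 - s) = W Λ(s)`; here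
`Γ_ℝ(s) = π^(-s/2) Γ(s/2)`, and `W` is the root number. -/
structure IsLFunction (R : ℕ) (a : ℕ) (φ : Ideal (𝓞 K) → ℂ) (W : ℂ) (L : ℂ → ℂ) : Prop where
  entire : Differentiable ℂ L
  series : ∀ s : ℂ, 1 < s.re → L s = ∑' I : Ideal (𝓞 K), φ I * ((Ideal.absNorm I : ℕ) : ℂ) ^ (-s)
  equation : ∃ Λ : ℂ → ℂ, Differentiable ℂ Λ ∧
    (∀ s : ℂ, 0 < s.re → Λ s = (R : ℂ) ^ (s / 2) * Complex.Gammaℝ (s + a) ^ 2 * L s) ∧
    ∀ s : ℂ, Λ (1 - s) = W * Λ s

/-- The ring class characters `χ` of conductor `q` such that `ψ χ` is not real, the root number of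
`L(s, ψ χ)` is `(-1)^k`, its zero at `1/2` has order exactly `k`, and `|L^(k)(1/2, ψ χ)| ≥ t`. -/
def good (t : ℝ) (f : Ideal (𝓞 K)) (a : ℕ) (ψ : Ideal (𝓞 K) →*₀ ℂ) (q k : ℕ) :
    Set (Ideal (𝓞 K) →*₀ ℂ) :=
  {χ | IsRingClass q χ ∧ (∃ I : Ideal (𝓞 K), (starRingEnd ℂ) (ψ I * χ I) ≠ ψ I * χ I) ∧
    ∃ L : ℂ → ℂ, IsLFunction (Ideal.absNorm f * q ^ 2 * (discr K).natAbs) a (fun I => ψ I * χ I)
      ((-1) ^ k) L ∧ analyticOrderAt L (1 / 2) = k ∧ t ≤ ‖iteratedDeriv k L (1 / 2)‖}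

open Pool.Agent.NH12.RS in
lemma isRingClass_iff (q : ℕ) (χ : Ideal (𝓞 K) →*₀ ℂ) : IsRingClass q χ ↔ IsPr q χ := by
  constructor
  · intro h
    refine { supp := h.supp, one := h.one, prim := ?_ }
    intro d hd hne hthr
    obtain ⟨x, h1, h2, h3⟩ := h.prim d hd hne
    exact h3 (hthr x h1 h2)
  · intro h
    refine ⟨h.supp, h.one, ?_⟩
    intro d hd hne
    have h1 := h.prim d hd hne
    unfold Thr at h1
    push Not at h1
    obtain ⟨x, h2, h3, h4⟩ := h1
    exact ⟨x, h2, h3, h4⟩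

open Pool.Agent.NH12.RS in
lemma good_sub [IsTotallyReal K] (t : ℝ) (f : Ideal (𝓞 K)) (a : ℕ) (ψ : Ideal (𝓞 K) →*₀ ℂ)
    (q k : ℕ) : Good t f a ψ q k ⊆ good t f a ψ q k := by
  intro χ hχ
  obtain ⟨h1, h2, L, hL, h3, h4⟩ := hχ
  refine ⟨(isRingClass_iff q χ).2 h1, ?_, L, ?_, h3, h4⟩
  · push Not at h2
    exact h2
  · have hN : Ideal.absNorm (differentIdeal ℤ (𝓞 K)) = (discr K).natAbs :=
      absNorm_differentIdeal K (𝓞 K)
    obtain ⟨e1, e2, Λ, e3, e4, e5⟩ := hL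
    refine ⟨e1, e2, Λ, e3, ?_, e5⟩
    intro s hs
    rw [e4 s hs, hN]
    push_cast
    rfl

open Pool.Agent.NH12.RS in
lemma card_le [IsTotallyReal K] (S : RQ K) : ∃ (C : ℝ) (n₀ : ℕ), 0 < C ∧ ∀ n q : ℕ, n₀ ≤ n →
    IsU S n q → {χ : Ideal (𝓞 K) →*₀ ℂ | IsRingClass q χ}.Finite ∧
      ({χ : Ideal (𝓞 K) →*₀ ℂ | IsRingClass q χ}.ncard : ℝ) ≤ C * q := by
  obtain ⟨C, n₀, hC, h⟩ := card_rs S
  refine ⟨C, n₀, hC, fun n q hn hq => ?_⟩
  have h1 : {χ : Ideal (𝓞 K) →*₀ ℂ | IsRingClass q χ} = PP K q := by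
    ext χ
    exact isRingClass_iff q χ
  rw [h1]
  exact h n q hn hq

open Pool.Agent.NH12.RS in
lemma good_mono [IsTotallyReal K] {t : ℝ} {f : Ideal (𝓞 K)} {a : ℕ}
    {ψ : Ideal (𝓞 K) →*₀ ℂ} {q k : ℕ} {B : ℝ}
    (hfin : {χ : Ideal (𝓞 K) →*₀ ℂ | IsRingClass q χ}.Finite)
    (h : B ≤ ((Good t f a ψ q k).ncard : ℝ)) : B ≤ ((good t f a ψ q k).ncard : ℝ) := by
  refine h.trans ?_
  have h1 : (good t f a ψ q k).Finite := hfin.subset fun χ h => h.1
  exact_mod_cast Set.ncard_le_ncard (good_sub t f a ψ q k) h1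

open Pool.Agent.NH12.RS in
/-- the base character in the language of the helper files -/
lemma base_of [IsTotallyReal K] (S : RQ K) {σ : K ≃+* K} (hS : ∀ x : 𝓞 K, ((S.σ x : 𝓞 K) : K) = σ (x : K))
    {f : Ideal (𝓞 K)} {a : ℕ} {ψ : Ideal (𝓞 K) →*₀ ℂ} (h : IsSelfDual σ f a ψ) : Base S f a ψ where
  ne_bot := h.ne_bot
  le_one := h.le_one
  supp := h.supp
  sig x hx hxf := by
    rw [sg_norm h.le_one]
    exact h.ray x hx hxf
  prim := h.prim
  self I := by
    have h1 : (S.σ : 𝓞 K →+* 𝓞 K) = (conj σ : 𝓞 K →+* 𝓞 K) := by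
      ext x
      exact hS x
    unfold RQ.cj
    rw [h1]
    exact h.self I

open Pool.Agent.NH12.RS in
/-- **Main theorem.** -/
theorem result :
    (∀ (K : Type) [Field K] [NumberField K] [IsTotallyReal K], Module.finrank ℚ K = 2 →
      ∀ σ : K ≃+* K, (∃ x, σ x ≠ x) → ∀ ε : (𝓞 K)ˣ, IsFundamental ε →
      ∀ (f : Ideal (𝓞 K)) (a : ℕ) (ψ : Ideal (𝓞 K) →*₀ ℂ), IsSelfDual σ f a ψ → IsSymplectic ψ →
      ∃ (t c C : ℝ) (n₀ : ℕ), 0 < t ∧ 0 < c ∧ ∀ n : ℕ, n₀ ≤ n → n.Prime →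
        ∃ q : ℕ, IsIndex σ ε n q ∧
          {χ : Ideal (𝓞 K) →*₀ ℂ | IsRingClass q χ}.Finite ∧
          ({χ : Ideal (𝓞 K) →*₀ ℂ | IsRingClass q χ}.ncard : ℝ) ≤ C * q ∧
          (∃ k : ℕ, k ≤ 1 ∧ c * q / Real.log q ^ 8 ≤ ((good t f a ψ q k).ncard : ℝ)) ∧
          ((∀ m : ℕ, f ≠ Ideal.span {(m : 𝓞 K)}) →
            ∀ k : ℕ, k ≤ 1 → c * q / Real.log q ^ 8 ≤ ((good t f a ψ q k).ncard : ℝ))) ∧
    (∀ (K : Type) [Field K] [NumberField K], Module.finrank ℚ K = 2 →
      ∀ s : 𝓞 K, s ^ 2 = 5 → ∀ ξ : DirichletCharacter ℂ 5, ξ 2 = Complex.I →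
      ∀ ψ : Ideal (𝓞 K) →*₀ ℂ, (∀ I, ψ I = ξ ((Ideal.absNorm I : ℕ) : ZMod 5)) →
      ∃ (t c : ℝ) (n₀ : ℕ), 0 < t ∧ 0 < c ∧ ∀ n : ℕ, n₀ ≤ n → n.Prime → ∀ k : ℕ, k ≤ 1 →
        c * Nat.fib n / Real.log (Nat.fib n) ^ 8 ≤
          ((good t (Ideal.span {s}) 1 ψ (Nat.fib n) k).ncard : ℝ)) := by
  constructor
  · intro K _ _ _ h2 σ hσ ε hε f a ψ hψ _
    obtain ⟨S, hS⟩ := t_base K h2 σ hσ
    have hB := base_of S hS hψ
    have hconj : ∀ x : 𝓞 K, conj σ x = S.σ x := by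
      intro x
      apply RingOfIntegers.ext
      exact (hS x).symm
    obtain ⟨t, c, n₂, ht, hc, hn₂⟩ := main_rs2 S h2 hB
    obtain ⟨C, n₁, hC, hcard⟩ := card_le S
    refine ⟨t, c, C, max n₁ n₂, ht, hc, fun n hn hnp => ?_⟩
    simp only [max_le_iff] at hn
    -- the number `q`
    obtain ⟨q, hq⟩ := (a_seq K S).1 n hnp
    have hq' : IsIndex σ ε n q := by
      unfold IsIndex
      rw [hconj]
      exact exists_index S hε hnp hq
    obtain ⟨hfin, hle⟩ := hcard n q hn.1 hq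
    obtain ⟨m1, m2, -⟩ := hn₂ n q hn.2 hq
    refine ⟨q, hq', hfin, hle, ?_, ?_⟩
    · obtain ⟨k, hk, h3⟩ := m2
      exact ⟨k, hk, good_mono hfin h3⟩
    · intro hf k hk
      refine good_mono hfin (m1 ?_ k hk)
      rintro ⟨m, -, hm⟩
      exact hf m hm
  · intro K _ _ h2 s hs ξ hξ ψ hψ
    have : IsTotallyReal K := real_five h2 s hs
    obtain ⟨σ, hσ⟩ := exists_aut h2
    obtain ⟨S, -⟩ := t_base K h2 σ hσ
    obtain ⟨hB, hr, -⟩ := five a_conj h2 S s hs ξ hξ ψ hψ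
    obtain ⟨t, c, n₂, ht, hc, hn₂⟩ := main_rs2 S h2 hB
    obtain ⟨C, n₁, hC, hcard⟩ := card_le S
    refine ⟨t, c, max n₁ n₂, ht, hc, fun n hn hnp k hk => ?_⟩
    simp only [max_le_iff] at hn
    have hq := fib_five S s hs n hnp
    exact good_mono (hcard n _ hn.1 hq).1 ((hn₂ n _ hn.2 hq).1 hr k hk)

end Pool.Agent.Results.MP_3b6604_nt.SymplecticCentralOrders
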